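import Pool.Agent.U64.AN.Loc

/-!
# Points on a line of projective space: heights and counting functions
-/

set_option autoImplicit false

namespace Pool.Agent.U64.AN

open NumberField IsDedekindDomain Pool.Agent.H691R3 Pool.Agent.U64.DP MvPolynomial

variable {K : Type} [Field K] [NumberField K]

/-- the logarithmic height of the point with coordinates `z`, times the degree -/
noncomputable def dhz {n : ℕ} (z : Fin (n + 1) → K) : ℝ :=
  ∑ w : InfinitePlace K, (w.mult : ℝ) * Real.log (sp w z) +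
    ∑ᶠ v : HeightOneSpectrum (𝓞 K), Real.log (sp (fv v) z)

theorem dh_eq {x : K} {T : Finset (HeightOneSpectrum (𝓞 K))} (hx : ∀ v, v ∉ T → fv v x = 1) :
    dh x = ∑ w : InfinitePlace K, (w.mult : ℝ) * Real.log (mx w x) +
      ∑ v ∈ T, Real.log (mx (fv v) x) := by
  unfold dh
  congr 1
  refine finsum_eq_sum_of_support_subset _ ?_
  intro v hv
  by_contra hcon
  exact hv (by beta_reduce; rw [mx_eq_one (hx v hcon), Real.log_one])

/-- everything is integral and the minor is a unit outside `T` -/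
structure Ok {n : ℕ} (T : Finset (HeightOneSpectrum (𝓞 K))) (a b : Fin (n + 1) → K)
    (i₀ i₁ : Fin (n + 1)) : Prop where
  ne : a i₀ * b i₁ - a i₁ * b i₀ ≠ 0
  ha : ∀ v, v ∉ T → ∀ i, fv v (a i) ≤ 1
  hb : ∀ v, v ∉ T → ∀ i, fv v (b i) ≤ 1
  unit : ∀ v, v ∉ T → fv v (a i₀ * b i₁ - a i₁ * b i₀) = 1

theorem dhz_eq {n : ℕ} {T : Finset (HeightOneSpectrum (𝓞 K))} {a b : Fin (n + 1) → K}
    {i₀ i₁ : Fin (n + 1)} (h : Ok T a b i₀ i₁) {x : K} (hx : ∀ v, v ∉ T → fv v x = 1) :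
    dhz (pt a b x) = ∑ w : InfinitePlace K, (w.mult : ℝ) * Real.log (sp w (pt a b x)) +
      ∑ v ∈ T, Real.log (sp (fv v) (pt a b x)) := by
  unfold dhz
  congr 1
  refine finsum_eq_sum_of_support_subset _ ?_
  intro v hv
  by_contra hcon
  exact hv (by
    beta_reduce
    rw [sp_eq_one (h.ha v hcon) (h.hb v hcon) (h.unit v hcon) (hx v hcon).le, Real.log_one])

theorem loc_bounds {n : ℕ} {a b : Fin (n + 1) → K} {i₀ i₁ : Fin (n + 1)}
    (hne : a i₀ * b i₁ - a i₁ * b i₀ ≠ 0) (f : AbsoluteValue K ℝ) (x : K) :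
    Real.log (mx f x) ≤ Real.log (4 * bs f a b / f (a i₀ * b i₁ - a i₁ * b i₀)) +
      Real.log (sp f (pt a b x)) ∧
    Real.log (sp f (pt a b x)) ≤ Real.log (bs f a b) + Real.log (mx f x) := by
  have hΔ := f.pos hne
  have h1 := mx_le_sp f a b i₀ i₁ x
  have h2 := sp_pt_le f a b x
  have h3 := one_le_mx f x
  have hbs0 : 0 ≤ bs f a b := Finset.sum_nonneg fun i _ => add_nonneg (f.nonneg _) (f.nonneg _)
  have hpos : 0 < 4 * bs f a b * sp f (pt a b x) := lt_of_lt_of_le (mul_pos hΔ (by linarith)) h1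
  have hsp0 : 0 ≤ sp f (pt a b x) := (f.nonneg _).trans (le_sp f (pt a b x) i₀)
  have hbs : 0 < bs f a b := by
    rcases hbs0.eq_or_lt with h | h
    · rw [← h] at hpos; simp at hpos
    · exact h
  have hsp : 0 < sp f (pt a b x) := by
    rcases hsp0.eq_or_lt with h | h
    · rw [← h] at hpos; simp at hpos
    · exact h
  constructor
  · rw [← Real.log_mul (by positivity) hsp.ne']
    refine Real.log_le_log (by linarith) ?_
    rw [div_mul_eq_mul_div, le_div_iff₀ hΔ]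
    linarith
  · rw [← Real.log_mul hbs.ne' (by linarith)]
    exact Real.log_le_log hsp h2

/-- Comparison of the heights. -/
theorem height_comp {n : ℕ} {T : Finset (HeightOneSpectrum (𝓞 K))} {a b : Fin (n + 1) → K}
    {i₀ i₁ : Fin (n + 1)} (h : Ok T a b i₀ i₁) :
    ∃ C : ℝ, 0 ≤ C ∧ ∀ x : K, (∀ v, v ∉ T → fv v x = 1) →
      dh x ≤ dhz (pt a b x) + C ∧ dhz (pt a b x) ≤ dh x + C := by
  classical
  set c₁ : AbsoluteValue K ℝ → ℝ := fun f =>
    Real.log (4 * bs f a b / f (a i₀ * b i₁ - a i₁ * b i₀)) with hc₁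
  set c₂ : AbsoluteValue K ℝ → ℝ := fun f => Real.log (bs f a b) with hc₂
  set C₁ : ℝ := ∑ w : InfinitePlace K, (w.mult : ℝ) * c₁ w.1 + ∑ v ∈ T, c₁ (fv v) with hC₁
  set C₂ : ℝ := ∑ w : InfinitePlace K, (w.mult : ℝ) * c₂ w.1 + ∑ v ∈ T, c₂ (fv v) with hC₂
  refine ⟨max 0 (max C₁ C₂), le_max_left _ _, fun x hx => ?_⟩
  rw [dh_eq hx, dhz_eq h hx]
  have k1 : ∑ w : InfinitePlace K, (w.mult : ℝ) * Real.log (mx w x) ≤
      ∑ w : InfinitePlace K, (w.mult : ℝ) * c₁ w.1 +
        ∑ w : InfinitePlace K, (w.mult : ℝ) * Real.log (sp w (pt a b x)) := by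
    rw [← Finset.sum_add_distrib]
    refine Finset.sum_le_sum fun w _ => ?_
    rw [← mul_add]
    exact mul_le_mul_of_nonneg_left (loc_bounds h.ne w.1 x).1 (Nat.cast_nonneg _)
  have k2 : ∑ v ∈ T, Real.log (mx (fv v) x) ≤ ∑ v ∈ T, c₁ (fv v) +
      ∑ v ∈ T, Real.log (sp (fv v) (pt a b x)) := by
    rw [← Finset.sum_add_distrib]
    exact Finset.sum_le_sum fun v _ => (loc_bounds h.ne (fv v) x).1
  have k3 : ∑ w : InfinitePlace K, (w.mult : ℝ) * Real.log (sp w (pt a b x)) ≤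
      ∑ w : InfinitePlace K, (w.mult : ℝ) * c₂ w.1 +
        ∑ w : InfinitePlace K, (w.mult : ℝ) * Real.log (mx w x) := by
    rw [← Finset.sum_add_distrib]
    refine Finset.sum_le_sum fun w _ => ?_
    rw [← mul_add]
    exact mul_le_mul_of_nonneg_left (loc_bounds h.ne w.1 x).2 (Nat.cast_nonneg _)
  have k4 : ∑ v ∈ T, Real.log (sp (fv v) (pt a b x)) ≤ ∑ v ∈ T, c₂ (fv v) +
      ∑ v ∈ T, Real.log (mx (fv v) x) := by
    rw [← Finset.sum_add_distrib]
    exact Finset.sum_le_sum fun v _ => (loc_bounds h.ne (fv v) x).2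
  have m1 : C₁ ≤ max 0 (max C₁ C₂) := (le_max_left _ _).trans (le_max_right _ _)
  have m2 : C₂ ≤ max 0 (max C₁ C₂) := (le_max_right _ _).trans (le_max_right _ _)
  constructor
  · rw [hC₁] at m1; linarith
  · rw [hC₂] at m2; linarith

/-- The local height at the prime `v` of the point with homogeneous coordinates `z`, relative to
the hypersurface `F = 0` of degree `e`. -/
noncomputable def lam {n : ℕ} (v : HeightOneSpectrum (𝓞 K)) (F : MvPolynomial (Fin (n + 1)) K)
    (e : ℕ) (z : Fin (n + 1) → K) : ℝ :=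
  Real.log ((⨆ m : F.support, FinitePlace.mk v (F.coeff m)) * (⨆ j, FinitePlace.mk v (z j)) ^ e /
    FinitePlace.mk v (eval z F))

theorem lam_eq {n : ℕ} {v : HeightOneSpectrum (𝓞 K)} {F : MvPolynomial (Fin (n + 1)) K} {e : ℕ}
    {z : Fin (n + 1) → K} (hF : F ≠ 0) (hc : ∀ m ∈ F.support, fv v (F.coeff m) = 1)
    (hz : sp (fv v) z = 1) : lam v F e z = -Real.log (fv v (eval z F)) := by
  have h1 : (⨆ m : F.support, FinitePlace.mk v (F.coeff m)) = 1 := by
    have : Nonempty F.support := by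
      obtain ⟨m, hm⟩ := (support_nonempty.2 hF)
      exact ⟨⟨m, hm⟩⟩
    have h2 : ∀ m : F.support, FinitePlace.mk v (F.coeff m) = 1 := fun m => hc m m.2
    simp only [h2]
    exact ciSup_const
  have h3 : (⨆ j, FinitePlace.mk v (z j)) = 1 := hz
  unfold lam
  rw [h1, h3, one_pow, one_mul, one_div, Real.log_inv]
  rfl

theorem fv_sum_le {ι : Type*} (v : HeightOneSpectrum (𝓞 K)) (s : Finset ι) (h : ι → K)
    (hh : ∀ i ∈ s, fv v (h i) ≤ 1) : fv v (∑ i ∈ s, h i) ≤ 1 := by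
  classical
  induction s using Finset.induction_on with
  | empty => rw [Finset.sum_empty, map_zero]; exact zero_le_one
  | insert i s hi ih =>
    rw [Finset.sum_insert hi]
    exact (fv_na v _ _).trans (max_le (hh i (Finset.mem_insert_self i s))
      (ih fun j hj => hh j (Finset.mem_insert_of_mem hj)))

theorem fv_eval_le {v : HeightOneSpectrum (𝓞 K)} {g : Polynomial K}
    (hg : ∀ i, fv v (g.coeff i) ≤ 1) {x : K} (hx : fv v x ≤ 1) : fv v (g.eval x) ≤ 1 := by
  rw [Polynomial.eval_eq_sum_range]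
  refine fv_sum_le v _ _ fun i _ => ?_
  rw [map_mul, map_pow]
  exact mul_le_one₀ (hg i) (pow_nonneg ((fv v).nonneg _) _) (pow_le_one₀ ((fv v).nonneg _) hx)

/-- the data of a divisor on a line -/
structure Dat {n : ℕ} {ι : Type} (T : Finset (HeightOneSpectrum (𝓞 K))) (a b : Fin (n + 1) → K)
    (F : ι → MvPolynomial (Fin (n + 1)) K) (g : ι → Polynomial K) (t : ι → ℕ)
    (j₁ j₂ : ι) (c₁ c₂ : K) : Prop where
  F0 : ∀ j, F j ≠ 0
  eval : ∀ j x, eval (pt a b x) (F j) = (g j).eval x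
  deg : ∀ j, (g j).natDegree ≤ t j
  ne : j₁ ≠ j₂
  e1 : ∀ x, (g j₁).eval x = c₁ * x
  e2 : ∀ x, (g j₂).eval x = c₂ * (x - 1)
  unit1 : ∀ v, v ∉ T → fv v c₁ = 1
  unit2 : ∀ v, v ∉ T → fv v c₂ = 1
  coeff : ∀ v, v ∉ T → ∀ j, ∀ m ∈ (F j).support, fv v ((F j).coeff m) = 1
  int : ∀ v, v ∉ T → ∀ j i, fv v ((g j).coeff i) ≤ 1

theorem count_le {n : ℕ} {ι : Type} [Fintype ι] [DecidableEq ι] {T : Finset (HeightOneSpectrum (𝓞 K))} {a b : Fin (n + 1) → K}
    {i₀ i₁ : Fin (n + 1)} (h : Ok T a b i₀ i₁) {F : ι → MvPolynomial (Fin (n + 1)) K}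
    {g : ι → Polynomial K} {t : ι → ℕ} {j₁ j₂ : ι} {c₁ c₂ : K}
    (hd : Dat T a b F g t j₁ j₂ c₁ c₂) (e : ι → ℕ) (k : ℕ) :
    ∃ C : ℝ, ∀ x : K, x ≠ 0 → x ≠ 1 → (∀ v, v ∉ T → fv v x = 1) →
      (∀ j, MvPolynomial.eval (pt a b x) (F j) ≠ 0) →
      ∑ᶠ v : HeightOneSpectrum (𝓞 K), min (k * Real.log (Nv v))
        (∑ j, lam v (F j) (e j) (pt a b x)) ≤
      C + (∑ j ∈ (Finset.univ.erase j₁).erase j₂, (t j : ℝ)) * dh x +
        ∑ᶠ v : HeightOneSpectrum (𝓞 K), cn k v x := by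
  classical
  set J : Finset (ι) := (Finset.univ.erase j₁).erase j₂ with hJ
  set Cj : ι → ℝ := fun j => ∑ w : InfinitePlace K, (w.mult : ℝ) *
    Real.log (bd w.1 (g j) (t j)) + ∑ v ∈ T, Real.log (bd (fv v) (g j) (t j)) with hCj
  refine ⟨∑ v ∈ T, k * Real.log (Nv v) + ∑ j ∈ J, Cj j, fun x hx0 hx1 hx hF => ?_⟩
  have hg0 : ∀ j, (g j).eval x ≠ 0 := fun j => by rw [← hd.eval]; exact hF j
  set S₀ : Finset (HeightOneSpectrum (𝓞 K)) := T ∪ ((exc_finite hx0 hx1).toFinset ∪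
    Finset.univ.biUnion (fun j => (fv_support_finite (hg0 j)).toFinset)) with hS₀
  have hTS : T ⊆ S₀ := Finset.subset_union_left
  have hout : ∀ v, v ∉ S₀ → v ∉ T ∧ (fv v x = 1 ∧ fv v (1 - x) = 1) ∧
      ∀ j, fv v ((g j).eval x) = 1 := by
    intro v hv
    rw [hS₀, Finset.mem_union, Finset.mem_union, not_or, not_or] at hv
    obtain ⟨h1, h2, h3⟩ := hv
    refine ⟨h1, ?_, fun j => ?_⟩
    · rw [Set.Finite.mem_toFinset] at h2
      simp only [Set.mem_ofPred_eq] at h2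
      push Not at h2
      exact h2
    · by_contra hcon
      apply h3
      rw [Finset.mem_biUnion]
      exact ⟨j, Finset.mem_univ j, by rw [Set.Finite.mem_toFinset]; exact hcon⟩
  -- the local heights outside `T`
  have hlam : ∀ v, v ∉ T → ∀ j, lam v (F j) (e j) (pt a b x) =
      -Real.log (fv v ((g j).eval x)) := by
    intro v hv j
    rw [lam_eq (hd.F0 j) (hd.coeff v hv j)
      (sp_eq_one (h.ha v hv) (h.hb v hv) (h.unit v hv) (hx v hv).le), hd.eval]
  have hle1 : ∀ v, v ∉ T → ∀ j, fv v ((g j).eval x) ≤ 1 := fun v hv j =>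
    fv_eval_le (hd.int v hv j) (hx v hv).le
  have hlam0 : ∀ v, v ∉ T → ∀ j, 0 ≤ -Real.log (fv v ((g j).eval x)) := fun v hv j =>
    neg_nonneg.2 (Real.log_nonpos ((fv v).nonneg _) (hle1 v hv j))
  have hlam1 : ∀ v, v ∉ T → -Real.log (fv v ((g j₁).eval x)) = 0 := by
    intro v hv
    rw [hd.e1, map_mul, hd.unit1 v hv, hx v hv, mul_one, Real.log_one, neg_zero]
  have hlam2 : ∀ v, v ∉ T → -Real.log (fv v ((g j₂).eval x)) =
      Real.log (mx (fv v) x / mn (fv v) x) := by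
    intro v hv
    rw [hd.e2, map_mul, hd.unit2 v hv, one_mul, mx_eq_one (hx v hv), mn_eq (hx v hv), one_div,
      Real.log_inv]
    congr 2
    rw [← AbsoluteValue.map_neg, neg_sub]
  -- the sum as a finite sum
  have s1 : ∑ᶠ v : HeightOneSpectrum (𝓞 K), min (k * Real.log (Nv v))
      (∑ j, lam v (F j) (e j) (pt a b x)) =
      ∑ v ∈ S₀, min (k * Real.log (Nv v)) (∑ j, lam v (F j) (e j) (pt a b x)) := by
    refine finsum_eq_sum_of_support_subset _ ?_
    intro v hv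
    by_contra hcon
    obtain ⟨q1, q2, q3⟩ := hout v hcon
    refine hv ?_
    beta_reduce
    have : ∑ j, lam v (F j) (e j) (pt a b x) = 0 :=
      Finset.sum_eq_zero fun j _ => by rw [hlam v q1 j, q3 j, Real.log_one, neg_zero]
    rw [this]
    exact min_eq_right (mul_nonneg (Nat.cast_nonneg _) (log_Nv_pos v).le)
  have s2 : ∑ᶠ v : HeightOneSpectrum (𝓞 K), cn k v x = ∑ v ∈ S₀, cn k v x := by
    refine finsum_eq_sum_of_support_subset _ ?_
    intro v hv
    by_contra hcon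
    obtain ⟨q1, q2, q3⟩ := hout v hcon
    exact hv (cn_eq_zero k q2.1 q2.2)
  rw [s1, s2]
  -- place by place
  have key : ∑ v ∈ S₀, min (k * Real.log (Nv v)) (∑ j, lam v (F j) (e j) (pt a b x)) ≤
      ∑ v ∈ S₀, ((if v ∈ T then k * Real.log (Nv v) else
        ∑ j ∈ J, -Real.log (fv v ((g j).eval x))) + cn k v x) := by
    refine Finset.sum_le_sum fun v _ => ?_
    have hcn := cn_nonneg k v hx0 hx1
    by_cases hv : v ∈ T
    · rw [if_pos hv]
      exact (min_le_left _ _).trans (by linarith)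
    · rw [if_neg hv]
      have e1 : ∑ j, lam v (F j) (e j) (pt a b x) =
          ∑ j ∈ J, -Real.log (fv v ((g j).eval x)) + Real.log (mx (fv v) x / mn (fv v) x) := by
        rw [← Finset.add_sum_erase _ _ (Finset.mem_univ j₁),
          ← Finset.add_sum_erase (Finset.univ.erase j₁) _
            (Finset.mem_erase.2 ⟨hd.ne.symm, Finset.mem_univ j₂⟩),
          hlam v hv j₁, hlam1 v hv, hlam v hv j₂, hlam2 v hv, zero_add, add_comm]
        congr 1
        exact Finset.sum_congr rfl fun j _ => hlam v hv j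
      rw [e1]
      have h0 : 0 ≤ ∑ j ∈ J, -Real.log (fv v ((g j).eval x)) :=
        Finset.sum_nonneg fun j _ => hlam0 v hv j
      unfold cn
      rcases le_total (k * Real.log (Nv v)) (Real.log (mx (fv v) x / mn (fv v) x)) with hh | hh
      · rw [min_eq_left hh]
        exact (min_le_left _ _).trans (by linarith)
      · rw [min_eq_right hh]
        exact (min_le_right _ _)
  refine key.trans ?_
  rw [Finset.sum_add_distrib]
  refine add_le_add ?_ le_rfl
  rw [Finset.sum_ite]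
  have f1 : S₀.filter (fun v => v ∈ T) = T := by
    ext v
    rw [Finset.mem_filter]
    exact ⟨fun q => q.2, fun q => ⟨hTS q, q⟩⟩
  rw [f1, Finset.sum_comm, add_assoc]
  refine add_le_add le_rfl ?_
  rw [dh_eq hx, Finset.sum_mul, ← Finset.sum_add_distrib]
  refine Finset.sum_le_sum fun j _ => ?_
  -- product formula
  have pf := log_product_formula (hg0 j)
  have s3 : ∑ᶠ v : HeightOneSpectrum (𝓞 K), Real.log (fv v ((g j).eval x)) =
      ∑ v ∈ S₀, Real.log (fv v ((g j).eval x)) := by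
    refine finsum_eq_sum_of_support_subset _ ?_
    intro v hv
    by_contra hcon
    obtain ⟨q1, q2, q3⟩ := hout v hcon
    exact hv (by beta_reduce; rw [q3 j, Real.log_one])
  rw [s3] at pf
  have s4 := Finset.sum_filter_add_sum_filter_not S₀ (fun v => v ∈ T)
    (fun v => Real.log (fv v ((g j).eval x)))
  rw [f1] at s4
  have b1 : ∑ w : InfinitePlace K, (w.mult : ℝ) * Real.log (w ((g j).eval x)) ≤
      ∑ w : InfinitePlace K, ((w.mult : ℝ) * Real.log (bd w.1 (g j) (t j)) +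
        t j * ((w.mult : ℝ) * Real.log (mx w x))) := by
    refine Finset.sum_le_sum fun w _ => ?_
    have := mul_le_mul_of_nonneg_left (log_eval_le w.1 (hd.deg j) (hg0 j))
      (Nat.cast_nonneg w.mult)
    refine this.trans (le_of_eq ?_)
    ring_nf
    rfl
  have b2 : ∑ v ∈ T, Real.log (fv v ((g j).eval x)) ≤
      ∑ v ∈ T, (Real.log (bd (fv v) (g j) (t j)) + t j * Real.log (mx (fv v) x)) :=
    Finset.sum_le_sum fun v _ => log_eval_le (fv v) (hd.deg j) (hg0 j)
  rw [Finset.sum_add_distrib, ← Finset.mul_sum] at b1 b2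
  rw [Finset.sum_neg_distrib, hCj]
  beta_reduce
  rw [mul_add]
  linarith

end Pool.Agent.U64.AN
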