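import Pool.Agent.U64.AN.Main

/-!
# Hyperplanes in general position
-/

set_option autoImplicit false

namespace Pool.Agent.U64.AN

open NumberField IsDedekindDomain Pool.Agent.H691R3 Pool.Agent.U64.DP

variable {K : Type} [Field K]

/-- the matrix of `n + 1` of the linear forms -/
theorem isUnit_of {n : ℕ} {l : Fin (n + 2) → Fin (n + 1) → K} {I : Finset (Fin (n + 2))}
    (hI : I.card = n + 1) (h : LinearIndependent K (fun i : I => l i)) :
    ∃ σ : Fin (n + 1) ≃ I, IsUnit (Matrix.of fun i j => l (σ i) j) := by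
  obtain ⟨σ⟩ : Nonempty (Fin (n + 1) ≃ I) := by
    rw [← Fintype.card_eq, Fintype.card_fin, Fintype.card_coe, hI]
  refine ⟨σ, ?_⟩
  rw [← Matrix.linearIndependent_rows_iff_isUnit]
  exact h.comp σ σ.injective

theorem solve {n : ℕ} {l : Fin (n + 2) → Fin (n + 1) → K} {I : Finset (Fin (n + 2))}
    (hI : I.card = n + 1) (h : LinearIndependent K (fun i : I => l i)) (c : Fin (n + 2) → K) :
    ∃ x : Fin (n + 1) → K, ∀ i ∈ I, ∑ j, l i j * x j = c i := by
  obtain ⟨σ, hσ⟩ := isUnit_of hI h
  obtain ⟨x, hx⟩ := (Matrix.mulVec_surjective_iff_isUnit.2 hσ) (fun i => c (σ i))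
  refine ⟨x, fun i hi => ?_⟩
  have := congrFun hx (σ.symm ⟨i, hi⟩)
  simp only [Matrix.mulVec, dotProduct, Matrix.of_apply, Equiv.apply_symm_apply] at this
  exact this

theorem eq_zero_of {n : ℕ} {l : Fin (n + 2) → Fin (n + 1) → K} {I : Finset (Fin (n + 2))}
    (hI : I.card = n + 1) (h : LinearIndependent K (fun i : I => l i)) {x : Fin (n + 1) → K}
    (hx : ∀ i ∈ I, ∑ j, l i j * x j = 0) : x = 0 := by
  obtain ⟨σ, hσ⟩ := isUnit_of hI h
  refine (Matrix.mulVec_injective_iff_isUnit.2 hσ) ?_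
  funext i
  simp only [Matrix.mulVec, dotProduct, Matrix.of_apply, Pi.zero_apply, mul_zero,
    Finset.sum_const_zero]
  exact hx _ (σ i).2

/-- the linear form -/
noncomputable def lf {n : ℕ} (l : Fin (n + 1) → K) : MvPolynomial (Fin (n + 1)) K :=
  ∑ j, MvPolynomial.C (l j) * MvPolynomial.X j

theorem lf_eval {n : ℕ} (l x : Fin (n + 1) → K) :
    MvPolynomial.eval x (lf l) = ∑ j, l j * x j := by
  unfold lf
  rw [map_sum]
  simp

theorem lf_line {n : ℕ} (l y V : Fin (n + 1) → K) : line (lf l) y V =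
    Polynomial.C (∑ j, l j * y j) + Polynomial.C (∑ j, l j * V j) * Polynomial.X := by
  unfold line lf
  rw [map_sum]
  simp only [map_mul, MvPolynomial.aeval_C, MvPolynomial.aeval_X, Polynomial.algebraMap_eq,
    map_sum, Finset.sum_mul]
  rw [← Finset.sum_add_distrib]
  refine Finset.sum_congr rfl fun j _ => ?_
  ring

theorem line_natDegree_le {n : ℕ} {F : MvPolynomial (Fin (n + 1)) K} {e : ℕ}
    (hF : F.IsHomogeneous e) (y V : Fin (n + 1) → K) : (line F y V).natDegree ≤ e := by
  unfold line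
  have h := MvPolynomial.aeval_natDegree_le F hF.totalDegree_le
    (fun i => Polynomial.C (y i) + Polynomial.X * Polynomial.C (V i)) (n := 1) (fun i => by
      refine (Polynomial.natDegree_add_le _ _).trans (max_le ?_ ?_)
      · rw [Polynomial.natDegree_C]; exact zero_le_one
      · refine (Polynomial.natDegree_mul_le).trans ?_
        rw [Polynomial.natDegree_C, add_zero]
        exact Polynomial.natDegree_X_le)
  rwa [mul_one] at h

variable [NumberField K]

theorem hyper {n r : ℕ} (hn : 1 ≤ n) {l : Fin (n + 2) → Fin (n + 1) → K}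
    (hl : ∀ I : Finset (Fin (n + 2)), I.card = n + 1 → LinearIndependent K (fun i : I => l i))
    {F : Fin r → MvPolynomial (Fin (n + 1)) K} {e : Fin r → ℕ}
    (hF : ∀ j, F j ≠ 0 ∧ (F j).IsHomogeneous (e j))
    (y : Fin (n + 1) → K) (S : Finset (HeightOneSpectrum (𝓞 K))) {δ : ℝ} (hδ : 0 < δ)
    {G : MvPolynomial (Fin (n + 1)) K} (hG : G ≠ 0) (k : ℕ) {c : ℝ}
    (hc : c < 1 / (2 * (Module.finrank ℚ K : ℝ))) (B : ℝ) :
    ∃ z : Fin (n + 1) → K, (∀ v ∈ S, ∀ i, fv v (z i - y i) < δ) ∧
      (∀ (w : InfinitePlace K) i, w (z i - y i) < δ) ∧ (∀ i, ∑ j, l i j * z j ≠ 0) ∧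
      (∀ j, MvPolynomial.eval z (F j) ≠ 0) ∧ MvPolynomial.eval z G ≠ 0 ∧ B ≤ height z ∧
      count k (Sum.elim (fun i => lf (l i)) F) (Sum.elim (fun _ => 1) e) z +
        c * Real.log (height z) ≤ (1 + ∑ j, (e j : ℝ)) * height z := by
  classical
  have h01 : (0 : Fin (n + 2)) ≠ Fin.last (n + 1) := by
    intro h
    have := congrArg Fin.val h
    simp at this
  have hcard : ∀ i : Fin (n + 2), (Finset.univ.erase i).card = n + 1 := fun i => by
    rw [Finset.card_erase_of_mem (Finset.mem_univ i), Finset.card_univ, Fintype.card_fin]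
    omega
  -- the vertex
  obtain ⟨V, hV⟩ := solve (hcard (Fin.last (n + 1))) (hl _ (hcard _))
    (fun i => if i = 0 then 1 else 0)
  have hV0 : ∑ j, l 0 j * V j = 1 := by
    rw [hV 0 (Finset.mem_erase.2 ⟨h01, Finset.mem_univ _⟩), if_pos rfl]
  have hVi : ∀ i, i ≠ 0 → i ≠ Fin.last (n + 1) → ∑ j, l i j * V j = 0 := fun i h1 h2 => by
    rw [hV i (Finset.mem_erase.2 ⟨h2, Finset.mem_univ _⟩), if_neg h1]
  have hVne : V ≠ 0 := by
    rintro rfl
    simp at hV0
  have hVl : ∑ j, l (Fin.last (n + 1)) j * V j ≠ 0 := by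
    intro h0
    apply hVne
    refine eq_zero_of (hcard 0) (hl _ (hcard 0)) fun i hi => ?_
    rw [Finset.mem_erase] at hi
    by_cases h : i = Fin.last (n + 1)
    · rw [h]; exact h0
    · exact hVi i hi.1 h
  -- a point on the first hyperplane
  have h1 : (1 : Fin (n + 2)) ≠ 0 := by
    intro h
    have := congrArg Fin.val h
    simp at this
  have h1l : (1 : Fin (n + 2)) ≠ Fin.last (n + 1) := by
    intro h
    have := congrArg Fin.val h
    rw [Fin.val_one, Fin.val_last] at this
    omega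
  obtain ⟨y₀, hy₀⟩ := solve (hcard 1) (hl _ (hcard 1))
    (fun i => if i = 0 then 0 else 1)
  have hy00 : ∑ j, l 0 j * y₀ j = 0 := by
    rw [hy₀ 0 (Finset.mem_erase.2 ⟨h1.symm, Finset.mem_univ _⟩), if_pos rfl]
  have hy0l : ∑ j, l (Fin.last (n + 1)) j * y₀ j = 1 := by
    rw [hy₀ _ (Finset.mem_erase.2 ⟨h1l.symm, Finset.mem_univ _⟩), if_neg h01.symm]
  have hlf0 : ∀ i, lf (l i) ≠ 0 := by
    intro i h0
    -- a point off the `i`-th hyperplane
    obtain ⟨i', hi'⟩ : ∃ i' : Fin (n + 2), i' ≠ i := by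
      by_cases h : i = 0
      · exact ⟨1, by rw [h]; exact h1⟩
      · exact ⟨0, fun hh => h hh.symm⟩
    obtain ⟨x, hx⟩ := solve (hcard i') (hl _ (hcard i')) (fun _ => 1)
    have := hx i (Finset.mem_erase.2 ⟨hi'.symm, Finset.mem_univ _⟩)
    rw [← lf_eval, h0, map_zero] at this
    exact zero_ne_one this
  have hmain := main (F := Sum.elim (fun i => lf (l i)) F) (e := Sum.elim (fun _ => 1) e)
    (t := Sum.elim (fun i => if i = 0 ∨ i = Fin.last (n + 1) then 1 else 0) e) (V := V)
    (j₁ := Sum.inl 0) (j₂ := Sum.inl (Fin.last (n + 1))) hn hVne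
    (by
      rintro (i | j)
      · exact hlf0 i
      · exact (hF j).1)
    (by
      rintro (i | j) y
      · simp only [Sum.elim_inl]
        rw [lf_line]
        split_ifs with hi
        · refine (Polynomial.natDegree_add_le _ _).trans (max_le ?_ ?_)
          · rw [Polynomial.natDegree_C]; exact zero_le_one
          · exact (Polynomial.natDegree_C_mul_le _ _).trans Polynomial.natDegree_X_le
        · rw [not_or] at hi
          rw [hVi i hi.1 hi.2, map_zero, zero_mul, add_zero, Polynomial.natDegree_C]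
      · exact line_natDegree_le (hF j).2 y V)
    (by
      rw [Fintype.sum_sum_type, Fintype.sum_sum_type]
      simp only [Sum.elim_inl, Sum.elim_inr]
      have e1 : ∑ i : Fin (n + 2), (if i = 0 ∨ i = Fin.last (n + 1) then 1 else 0) = 2 := by
        rw [← Finset.sum_filter]
        have e2 : (Finset.univ.filter fun i : Fin (n + 2) => i = 0 ∨ i = Fin.last (n + 1)) =
            {0, Fin.last (n + 1)} := by
          ext i; simp
        rw [e2, Finset.sum_const, Finset.card_pair h01]
        rfl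
      rw [e1, Finset.sum_const, Finset.card_univ, Fintype.card_fin]
      simp only [smul_eq_mul, mul_one]
      omega)
    (by simp) (by simp)
    (by
      refine ⟨y₀, ?_, ?_, fun s => ?_⟩
      · simp only [Sum.elim_inl]
        rw [lf_line, hy00, hV0]
        simp
      · simp only [Sum.elim_inl]
        rw [lf_line, add_comm]
        exact Polynomial.natDegree_linear hVl
      · simp only [Sum.elim_inl]
        rw [lf_line, lf_line, hy00, hV0, hy0l]
        rintro ⟨q1, q2⟩
        simp at q1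
        rw [q1] at q2
        simp at q2)
    y S hδ hG k hc B
  obtain ⟨z, z1, z2, z3, z4, z5, z6⟩ := hmain
  refine ⟨z, z1, z2, fun i => ?_, fun j => z3 (Sum.inr j), z4, z5, ?_⟩
  · have := z3 (Sum.inl i)
    simp only [Sum.elim_inl] at this
    rwa [lf_eval] at this
  · refine z6.trans (le_of_eq ?_)
    congr 1
    rw [Fintype.sum_sum_type]
    simp only [Sum.elim_inl, Sum.elim_inr, Nat.cast_one, Finset.sum_const, Finset.card_univ,
      Fintype.card_fin, nsmul_eq_mul, mul_one]
    push_cast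
    ring

end Pool.Agent.U64.AN
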