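import Pool.Agent.U64.AN.Glob

/-!
# Points of projective space with a small truncated counting function near a given point
-/

set_option autoImplicit false

namespace Pool.Agent.U64.AN

open NumberField IsDedekindDomain Pool.Agent.H691R3 Pool.Agent.U64.DP

variable {K : Type} [Field K]

/-- The polynomial `F (y + s V)` in `s`. -/
noncomputable def line {n : ℕ} (F : MvPolynomial (Fin (n + 1)) K) (y V : Fin (n + 1) → K) :
    Polynomial K :=
  MvPolynomial.aeval (fun i => Polynomial.C (y i) + Polynomial.X * Polynomial.C (V i)) F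

theorem line_eval {n : ℕ} (F : MvPolynomial (Fin (n + 1)) K) (y V : Fin (n + 1) → K) (s : K) :
    (line F y V).eval s = MvPolynomial.eval (fun i => y i + s * V i) F := by
  unfold line
  have h : (Polynomial.evalRingHom s).comp (MvPolynomial.aeval
      (fun i => Polynomial.C (y i) + Polynomial.X * Polynomial.C (V i)) :
        MvPolynomial (Fin (n + 1)) K →ₐ[K] Polynomial K).toRingHom =
      MvPolynomial.eval (fun i => y i + s * V i) := by
    refine MvPolynomial.ringHom_ext (fun c => ?_) (fun i => ?_)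
    · simp
    · simp
      exact mul_comm _ _
  exact congrArg (fun φ => φ F) h

/-- the shifted form -/
noncomputable def sh {n : ℕ} (V : Fin (n + 1) → K) (F : MvPolynomial (Fin (n + 1)) K) :
    MvPolynomial (Fin (n + 1)) K :=
  MvPolynomial.bind₁ (fun i => MvPolynomial.X i + MvPolynomial.C (V i)) F

theorem sh_eval {n : ℕ} (V y : Fin (n + 1) → K) (F : MvPolynomial (Fin (n + 1)) K) :
    MvPolynomial.eval y (sh V F) = MvPolynomial.eval (fun i => y i + V i) F := by
  unfold sh
  rw [← MvPolynomial.coe_aeval_eq_eval]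
  change (MvPolynomial.aeval y) (MvPolynomial.bind₁ _ F) = _
  rw [MvPolynomial.aeval_bind₁]
  have : (fun i => (MvPolynomial.aeval y) (MvPolynomial.X i + MvPolynomial.C (V i))) =
      (fun i => y i + V i) := by
    funext i; simp
  rw [this]
  rfl

theorem line_linear {n : ℕ} {F : MvPolynomial (Fin (n + 1)) K} {y V : Fin (n + 1) → K}
    (h : (line F y V).natDegree ≤ 1) (s : K) :
    (line F y V).eval s = MvPolynomial.eval y F +
      s * (MvPolynomial.eval y (sh V F) - MvPolynomial.eval y F) := by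
  have h1 : ∀ s, (line F y V).eval s = (line F y V).coeff 0 + (line F y V).coeff 1 * s := by
    intro s
    rw [Polynomial.eval_eq_sum_range' (Nat.lt_succ_of_le h), Finset.sum_range_succ,
      Finset.sum_range_one, pow_zero, mul_one, pow_one]
  have e0 : (line F y V).coeff 0 = MvPolynomial.eval y F := by
    have := h1 0
    rw [line_eval, mul_zero, add_zero] at this
    rw [← this]
    congr 1
    congr 1
    funext i
    ring
  have e1 : (line F y V).coeff 0 + (line F y V).coeff 1 = MvPolynomial.eval y (sh V F) := by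
    have := h1 1
    rw [line_eval, mul_one] at this
    rw [← this, sh_eval]
    congr 1
    congr 1
    funext i
    ring
  rw [h1, ← e1, e0]
  ring

variable [NumberField K]

/-- small rational numbers outside a finite set -/
theorem exists_small_notMem (S : Finset (HeightOneSpectrum (𝓞 K))) {δ : ℝ} (hδ : 0 < δ)
    (R : Finset K) : ∃ η : ℚ, 0 < η ∧ (η : ℝ) < δ ∧ (∀ v ∈ S, fv v (η : K) < δ) ∧
      (η : K) ∉ R := by
  classical
  -- the positive rational numbers in `R`
  have hinj : Function.Injective (fun r : ℚ => (r : K)) := Rat.cast_injective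
  have hfin : {r : ℚ | 0 < r ∧ (r : K) ∈ R}.Finite :=
    (Set.Finite.preimage hinj.injOn R.finite_toSet).subset fun r hr => hr.2
  obtain ⟨ε, hε0, hε⟩ : ∃ ε : ℝ, 0 < ε ∧ ∀ r ∈ hfin.toFinset, ε ≤ (r : ℝ) := by
    by_cases hne : hfin.toFinset.Nonempty
    · obtain ⟨r₀, hr₀, hmin⟩ := Finset.exists_min_image hfin.toFinset (fun r => (r : ℝ)) hne
      refine ⟨r₀, ?_, hmin⟩
      rw [Set.Finite.mem_toFinset] at hr₀
      exact_mod_cast hr₀.1
    · refine ⟨1, one_pos, fun r hr => absurd ⟨r, hr⟩ hne⟩
  set δ' : ℝ := min (min (1 / 2) δ) ε with hδ'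
  have h0 : 0 < δ' := lt_min (lt_min (by norm_num) hδ) hε0
  have hle1 : δ' ≤ 1 / 2 := (min_le_left _ _).trans (min_le_left _ _)
  have hle2 : δ' ≤ δ := (min_le_left _ _).trans (min_le_right _ _)
  obtain ⟨Q, hQ1, hQ2, hQ⟩ := exists_Q S h0
  have hQr : (1 : ℝ) ≤ Q := by exact_mod_cast hQ1
  have hQpos : (0 : ℝ) < Q := by linarith
  have hreal : ((Q : ℝ) / (1 + Q ^ 2)) < δ' := by
    rw [div_lt_iff₀ (by positivity)]
    rw [div_lt_iff₀ h0] at hQ2
    nlinarith
  have hQq : (0 : ℚ) < Q := by exact_mod_cast hQpos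
  refine ⟨(Q : ℚ) / (1 + Q ^ 2), by positivity, ?_, fun v hv => ?_, fun hmem => ?_⟩
  · push_cast
    exact hreal.trans_le hle2
  · have hQv := hQ v hv
    have h1 : fv v (Q : K) < 1 := hQv.trans_le (hle1.trans (by norm_num))
    have h2 : fv v (1 + (Q : K) ^ 2) = 1 := by
      refine eq_one_of_near (fv_na v) ?_
      rw [add_sub_cancel_left, map_pow]
      exact pow_lt_one₀ ((fv v).nonneg _) h1 (by norm_num)
    push_cast
    rw [map_div₀, h2, div_one]
    exact hQv.trans_le hle2
  · have h3 : (Q : ℚ) / (1 + Q ^ 2) ∈ hfin.toFinset := by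
      rw [Set.Finite.mem_toFinset]
      exact ⟨by positivity, hmem⟩
    have h4 := hε _ h3
    push_cast at h4
    exact absurd (hreal.trans_le (min_le_right _ _)) (not_lt.2 h4)

/-- Points near `y` where a given polynomial does not vanish. -/
theorem exists_near {n : ℕ} {Φ : MvPolynomial (Fin (n + 1)) K} (hΦ : Φ ≠ 0)
    (y : Fin (n + 1) → K) (S : Finset (HeightOneSpectrum (𝓞 K))) {δ : ℝ} (hδ : 0 < δ) :
    ∃ y' : Fin (n + 1) → K, (∀ v ∈ S, ∀ i, fv v (y' i - y i) < δ) ∧
      (∀ (w : InfinitePlace K) i, w (y' i - y i) < δ) ∧ MvPolynomial.eval y' Φ ≠ 0 := by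
  classical
  obtain ⟨y₁, hy₁⟩ : ∃ y₁ : Fin (n + 1) → K, MvPolynomial.eval y₁ Φ ≠ 0 := by
    by_contra hcon
    push Not at hcon
    exact hΦ (MvPolynomial.funext fun x => by rw [hcon x, map_zero])
  set u : Fin (n + 1) → K := fun i => y₁ i - y i with hu
  have hp : line Φ y u ≠ 0 := by
    intro h0
    have := line_eval Φ y u 1
    rw [h0, Polynomial.eval_zero] at this
    apply hy₁
    rw [this]
    congr 1
    congr 1
    funext i
    rw [hu]
    ring
  set M : ℝ := 1 + ∑ v ∈ S, ∑ i, fv v (u i) + ∑ w : InfinitePlace K, ∑ i, w (u i) with hM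
  have hwn : ∀ (w : InfinitePlace K) (z : K), 0 ≤ w z := fun w z => w.1.nonneg z
  have n1 : 0 ≤ ∑ v ∈ S, ∑ i, fv v (u i) :=
    Finset.sum_nonneg fun v _ => Finset.sum_nonneg fun i _ => (fv v).nonneg _
  have n2 : 0 ≤ ∑ w : InfinitePlace K, ∑ i, w (u i) :=
    Finset.sum_nonneg fun w _ => Finset.sum_nonneg fun i _ => hwn w _
  have hM0 : 0 < M := by rw [hM]; linarith
  have m1 : ∀ v ∈ S, ∀ i, fv v (u i) ≤ M := by
    intro v hv i
    have h1 := Finset.single_le_sum (f := fun i => fv v (u i))
      (fun i _ => (fv v).nonneg _) (Finset.mem_univ i)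
    have h2 := Finset.single_le_sum (f := fun v => ∑ i, fv v (u i))
      (fun v _ => Finset.sum_nonneg fun i _ => (fv v).nonneg _) hv
    rw [hM]; beta_reduce at h1 h2; linarith
  have m2 : ∀ (w : InfinitePlace K) i, w (u i) ≤ M := by
    intro w i
    have h1 := Finset.single_le_sum (f := fun i => w (u i))
      (fun i _ => hwn w _) (Finset.mem_univ i)
    have h2 := Finset.single_le_sum (f := fun w : InfinitePlace K => ∑ i, w (u i))
      (fun w _ => Finset.sum_nonneg fun i _ => hwn w _) (Finset.mem_univ w)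
    rw [hM]; beta_reduce at h1 h2; linarith
  obtain ⟨η, hη0, hηδ, hηS, hηR⟩ := exists_small_notMem S (div_pos hδ hM0)
    (line Φ y u).roots.toFinset
  refine ⟨fun i => y i + η * u i, fun v hv i => ?_, fun w i => ?_, ?_⟩
  · rw [add_sub_cancel_left, map_mul]
    have h1 := hηS v hv
    rw [lt_div_iff₀ hM0] at h1
    exact (mul_le_mul_of_nonneg_left (m1 v hv i) ((fv v).nonneg _)).trans_lt h1
  · rw [add_sub_cancel_left, map_mul, w_ratCast, abs_of_pos (by exact_mod_cast hη0)]
    have h1 := hηδ
    rw [lt_div_iff₀ hM0] at h1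
    exact (mul_le_mul_of_nonneg_left (m2 w i) (by exact_mod_cast hη0.le)).trans_lt h1
  · rw [← line_eval]
    intro h0
    apply hηR
    rw [Multiset.mem_toFinset, Polynomial.mem_roots hp]
    exact h0

end Pool.Agent.U64.AN
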