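import Pool.Agent.U64.DP.Main

/-!
# Points on a line of projective space: estimates at one place
-/

set_option autoImplicit false

namespace Pool.Agent.U64.AN

open NumberField IsDedekindDomain Pool.Agent.H691R3 Pool.Agent.U64.DP

section one
variable {K : Type} [Field K] (f : AbsoluteValue K ℝ)

theorem one_le_mx (x : K) : 1 ≤ mx f x := by
  unfold mx
  have : f (-1) = 1 := by rw [AbsoluteValue.map_neg, map_one]
  rw [this]
  exact (le_max_right _ _).trans (le_max_right _ _)

theorem le_mx (x : K) : f x ≤ mx f x := le_max_left _ _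

theorem mx_le (x : K) : mx f x ≤ 1 + f x := by
  unfold mx
  have h : f (-1) = 1 := by rw [AbsoluteValue.map_neg, map_one]
  have h0 := f.nonneg x
  rw [h]
  refine max_le (by linarith) (max_le ?_ (by linarith))
  have := f.sub_le 1 0 x
  simp only [sub_zero, zero_sub, map_one, AbsoluteValue.map_neg] at this
  exact this

/-- the supremum of the coordinates -/
noncomputable def sp {ι : Type*} (f : K → ℝ) (z : ι → K) : ℝ := ⨆ i, f (z i)

theorem le_sp {n : ℕ} (z : Fin (n + 1) → K) (i : Fin (n + 1)) : f (z i) ≤ sp f z :=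
  le_ciSup (Set.finite_range fun i => f (z i)).bddAbove i

theorem sp_le {n : ℕ} {z : Fin (n + 1) → K} {C : ℝ} (h : ∀ i, f (z i) ≤ C) : sp f z ≤ C :=
  ciSup_le h

/-- a bound for the values of a polynomial -/
noncomputable def bd (p : Polynomial K) (t : ℕ) : ℝ := ∑ i ∈ Finset.range (t + 1), f (p.coeff i)

theorem eval_le {p : Polynomial K} {t : ℕ} (hp : p.natDegree ≤ t) (x : K) :
    f (p.eval x) ≤ bd f p t * mx f x ^ t := by
  rw [Polynomial.eval_eq_sum_range' (Nat.lt_succ_of_le hp)]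
  refine (f.sum_le _ _).trans ?_
  unfold bd
  rw [Finset.sum_mul]
  refine Finset.sum_le_sum fun i hi => ?_
  rw [map_mul, map_pow]
  refine mul_le_mul_of_nonneg_left ?_ (f.nonneg _)
  have h1 : f x ^ i ≤ mx f x ^ i := pow_le_pow_left₀ (f.nonneg _) (le_mx f x) i
  refine h1.trans (pow_le_pow_right₀ (one_le_mx f x) ?_)
  rw [Finset.mem_range] at hi
  omega

theorem log_eval_le {p : Polynomial K} {t : ℕ} (hp : p.natDegree ≤ t) {x : K}
    (hx : p.eval x ≠ 0) : Real.log (f (p.eval x)) ≤ Real.log (bd f p t) + t * Real.log (mx f x) := by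
  have h1 := eval_le f hp x
  have h2 : 0 < f (p.eval x) := f.pos hx
  have h3 : 0 < mx f x ^ t := pow_pos (by linarith [one_le_mx f x]) _
  have h4 : 0 < bd f p t := by
    by_contra hcon
    push Not at hcon
    have : bd f p t * mx f x ^ t ≤ 0 := mul_nonpos_of_nonpos_of_nonneg hcon h3.le
    linarith
  rw [← Real.log_pow, ← Real.log_mul h4.ne' h3.ne']
  exact Real.log_le_log h2 h1

/-- the point with parameter `x` on the line through `a` and `b` -/
def pt {n : ℕ} (a b : Fin (n + 1) → K) (x : K) : Fin (n + 1) → K := fun i => a i + x * b i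

/-- a bound -/
noncomputable def bs {n : ℕ} (a b : Fin (n + 1) → K) : ℝ := ∑ i, (f (a i) + f (b i))

theorem bs_le {n : ℕ} (a b : Fin (n + 1) → K) (i : Fin (n + 1)) : f (a i) + f (b i) ≤ bs f a b :=
  Finset.single_le_sum (f := fun i => f (a i) + f (b i))
    (fun i _ => add_nonneg (f.nonneg _) (f.nonneg _)) (Finset.mem_univ i)

theorem sp_pt_le {n : ℕ} (a b : Fin (n + 1) → K) (x : K) :
    sp f (pt a b x) ≤ bs f a b * mx f x := by
  refine sp_le f fun i => ?_
  have h1 : f (pt a b x i) ≤ f (a i) + f x * f (b i) := by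
    unfold pt
    refine (f.add_le _ _).trans ?_
    rw [map_mul]
  have h2 := le_mx f x
  have h3 := one_le_mx f x
  have h4 := bs_le f a b i
  have h5 := f.nonneg (a i)
  have h6 := f.nonneg (b i)
  calc f (pt a b x i) ≤ f (a i) * mx f x + mx f x * f (b i) := by nlinarith
    _ = (f (a i) + f (b i)) * mx f x := by ring
    _ ≤ _ := mul_le_mul_of_nonneg_right h4 (by linarith)

theorem mx_le_sp {n : ℕ} (a b : Fin (n + 1) → K) (i₀ i₁ : Fin (n + 1)) (x : K) :
    f (a i₀ * b i₁ - a i₁ * b i₀) * mx f x ≤ 4 * bs f a b * sp f (pt a b x) := by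
  have e1 : a i₀ * b i₁ - a i₁ * b i₀ = pt a b x i₀ * b i₁ - pt a b x i₁ * b i₀ := by
    unfold pt; ring
  have e2 : (a i₀ * b i₁ - a i₁ * b i₀) * x = a i₀ * pt a b x i₁ - a i₁ * pt a b x i₀ := by
    unfold pt; ring
  have s0 := le_sp f (pt a b x) i₀
  have s1 := le_sp f (pt a b x) i₁
  have sn : 0 ≤ sp f (pt a b x) := (f.nonneg _).trans s0
  have b0 := bs_le f a b i₀
  have b1 := bs_le f a b i₁
  have p1 := f.nonneg (a i₀)
  have p2 := f.nonneg (a i₁)
  have p3 := f.nonneg (b i₀)
  have p4 := f.nonneg (b i₁)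
  have q0 := f.nonneg (pt a b x i₀)
  have q1 := f.nonneg (pt a b x i₁)
  have h1 : f (a i₀ * b i₁ - a i₁ * b i₀) ≤ 2 * bs f a b * sp f (pt a b x) := by
    rw [e1]
    have h := f.sub_le (pt a b x i₀ * b i₁) 0 (pt a b x i₁ * b i₀)
    simp only [sub_zero, zero_sub, AbsoluteValue.map_neg, map_mul] at h
    nlinarith [mul_le_mul s0 (show f (b i₁) ≤ bs f a b by linarith) p4 sn,
      mul_le_mul s1 (show f (b i₀) ≤ bs f a b by linarith) p3 sn]
  have h2 : f (a i₀ * b i₁ - a i₁ * b i₀) * f x ≤ 2 * bs f a b * sp f (pt a b x) := by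
    rw [← map_mul, e2]
    have h := f.sub_le (a i₀ * pt a b x i₁) 0 (a i₁ * pt a b x i₀)
    simp only [sub_zero, zero_sub, AbsoluteValue.map_neg, map_mul] at h
    nlinarith [mul_le_mul (show f (a i₀) ≤ bs f a b by linarith) s1 q1 (by linarith),
      mul_le_mul (show f (a i₁) ≤ bs f a b by linarith) s0 q0 (by linarith)]
  have h3 := mx_le f x
  have h4 := f.nonneg (a i₀ * b i₁ - a i₁ * b i₀)
  nlinarith

end one

section fin
variable {K : Type} [Field K] [NumberField K]

/-- at a prime where everything is integral and the minor is a unit -/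
theorem sp_eq_one {n : ℕ} {a b : Fin (n + 1) → K} {i₀ i₁ : Fin (n + 1)}
    {v : HeightOneSpectrum (𝓞 K)} (ha : ∀ i, fv v (a i) ≤ 1) (hb : ∀ i, fv v (b i) ≤ 1)
    (hΔ : fv v (a i₀ * b i₁ - a i₁ * b i₀) = 1) {x : K} (hx : fv v x ≤ 1) :
    sp (fv v) (pt a b x) = 1 := by
  refine le_antisymm (sp_le _ fun i => ?_) ?_
  · unfold pt
    refine (fv_na v _ _).trans (max_le (ha i) ?_)
    rw [map_mul]
    exact mul_le_one₀ hx ((fv v).nonneg _) (hb i)
  · have e1 : a i₀ * b i₁ - a i₁ * b i₀ = pt a b x i₀ * b i₁ + -(pt a b x i₁ * b i₀) := by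
      unfold pt; ring
    rw [← hΔ, e1]
    refine (fv_na v _ _).trans (max_le ?_ ?_)
    · rw [map_mul]
      refine (mul_le_of_le_one_right ((fv v).nonneg _) (hb i₁)).trans (le_sp _ _ i₀)
    · rw [AbsoluteValue.map_neg, map_mul]
      refine (mul_le_of_le_one_right ((fv v).nonneg _) (hb i₀)).trans (le_sp _ _ i₁)

theorem gt_one_finite (x : K) : {v : HeightOneSpectrum (𝓞 K) | 1 < fv v x}.Finite := by
  by_cases h : x = 0
  · subst h
    refine (Set.finite_empty).subset fun v hv => ?_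
    simp only [Set.mem_ofPred_eq, map_zero] at hv
    linarith
  · exact (fv_support_finite h).subset fun v hv => (ne_of_gt hv)

end fin

end Pool.Agent.U64.AN
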