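import Pool.Agent.U64.AN.Line

/-!
# Points of projective space with a small truncated counting function near a given point
-/

set_option autoImplicit false

namespace Pool.Agent.U64.AN

open NumberField IsDedekindDomain Pool.Agent.H691R3 Pool.Agent.U64.DP

variable {K : Type} [Field K] [NumberField K]

/-- the primes where the data of the line are bad are finite in number -/
theorem exists_T {n : ℕ} {ι : Type} [Fintype ι] (T₀ : Finset (HeightOneSpectrum (𝓞 K)))
    {a b : Fin (n + 1) → K} {i₀ i₁ : Fin (n + 1)} (hne : a i₀ * b i₁ - a i₁ * b i₀ ≠ 0)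
    (F : ι → MvPolynomial (Fin (n + 1)) K) (g : ι → Polynomial K) {c₁ c₂ : K} (hc₁ : c₁ ≠ 0)
    (hc₂ : c₂ ≠ 0) :
    ∃ T : Finset (HeightOneSpectrum (𝓞 K)), T₀ ⊆ T ∧ Ok T a b i₀ i₁ ∧
      (∀ v, v ∉ T → fv v c₁ = 1) ∧ (∀ v, v ∉ T → fv v c₂ = 1) ∧
      (∀ v, v ∉ T → ∀ j, ∀ m ∈ (F j).support, fv v ((F j).coeff m) = 1) ∧
      (∀ v, v ∉ T → ∀ j i, fv v ((g j).coeff i) ≤ 1) := by
  classical
  have f1 : (⋃ i, {v : HeightOneSpectrum (𝓞 K) | 1 < fv v (a i)}).Finite :=
    Set.finite_iUnion fun i => gt_one_finite _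
  have f2 : (⋃ i, {v : HeightOneSpectrum (𝓞 K) | 1 < fv v (b i)}).Finite :=
    Set.finite_iUnion fun i => gt_one_finite _
  have f3 := fv_support_finite hne
  have f4 := fv_support_finite hc₁
  have f5 := fv_support_finite hc₂
  have f6 : (⋃ j, ⋃ m ∈ (F j).support, {v : HeightOneSpectrum (𝓞 K) |
      fv v ((F j).coeff m) ≠ 1}).Finite := by
    refine Set.finite_iUnion fun j => Set.Finite.biUnion (F j).support.finite_toSet fun m hm => ?_
    exact fv_support_finite (MvPolynomial.mem_support_iff.1 hm)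
  have f7 : (⋃ j, ⋃ i ∈ Finset.range ((g j).natDegree + 1), {v : HeightOneSpectrum (𝓞 K) |
      1 < fv v ((g j).coeff i)}).Finite := by
    refine Set.finite_iUnion fun j => Set.Finite.biUnion
      (Finset.range ((g j).natDegree + 1)).finite_toSet fun i _ => gt_one_finite _
  refine ⟨T₀ ∪ (f1.toFinset ∪ (f2.toFinset ∪ (f3.toFinset ∪ (f4.toFinset ∪ (f5.toFinset ∪
    (f6.toFinset ∪ f7.toFinset)))))), Finset.subset_union_left, ?_, ?_, ?_, ?_, ?_⟩
  · refine ⟨hne, fun v hv i => ?_, fun v hv i => ?_, fun v hv => ?_⟩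
    · by_contra hcon
      push Not at hcon
      apply hv
      simp only [Finset.mem_union, Set.Finite.mem_toFinset, Set.mem_iUnion]
      exact Or.inr (Or.inl ⟨i, hcon⟩)
    · by_contra hcon
      push Not at hcon
      apply hv
      simp only [Finset.mem_union, Set.Finite.mem_toFinset, Set.mem_iUnion]
      exact Or.inr (Or.inr (Or.inl ⟨i, hcon⟩))
    · by_contra hcon
      apply hv
      simp only [Finset.mem_union, Set.Finite.mem_toFinset, Set.mem_iUnion]
      exact Or.inr (Or.inr (Or.inr (Or.inl hcon)))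
  · intro v hv
    by_contra hcon
    apply hv
    simp only [Finset.mem_union, Set.Finite.mem_toFinset, Set.mem_iUnion]
    exact Or.inr (Or.inr (Or.inr (Or.inr (Or.inl hcon))))
  · intro v hv
    by_contra hcon
    apply hv
    simp only [Finset.mem_union, Set.Finite.mem_toFinset, Set.mem_iUnion]
    exact Or.inr (Or.inr (Or.inr (Or.inr (Or.inr (Or.inl hcon)))))
  · intro v hv j m hm
    by_contra hcon
    apply hv
    simp only [Finset.mem_union, Set.Finite.mem_toFinset, Set.mem_iUnion]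
    exact Or.inr (Or.inr (Or.inr (Or.inr (Or.inr (Or.inr (Or.inl ⟨j, m, hm, hcon⟩))))))
  · intro v hv j i
    by_cases hi : i ∈ Finset.range ((g j).natDegree + 1)
    · by_contra hcon
      push Not at hcon
      apply hv
      simp only [Finset.mem_union, Set.Finite.mem_toFinset, Set.mem_iUnion]
      exact Or.inr (Or.inr (Or.inr (Or.inr (Or.inr (Or.inr (Or.inr ⟨j, i, hi, hcon⟩))))))
    · rw [Finset.mem_range, not_lt] at hi
      rw [Polynomial.coeff_eq_zero_of_natDegree_lt (by omega), map_zero]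
      exact zero_le_one

/-- The height `h(P)` of the point `P` with coordinates `z`. -/
noncomputable def height {n : ℕ} (z : Fin (n + 1) → K) : ℝ :=
  (∑ w : InfinitePlace K, (w.mult : ℝ) * Real.log (⨆ i, w (z i)) +
    ∑ᶠ v : HeightOneSpectrum (𝓞 K), Real.log (⨆ i, FinitePlace.mk v (z i))) /
    (Module.finrank ℚ K : ℝ)

theorem height_eq {n : ℕ} (z : Fin (n + 1) → K) :
    height z = dhz z / (Module.finrank ℚ K : ℝ) := rfl

/-- The truncated counting function. -/
noncomputable def count {n : ℕ} {ι : Type} [Fintype ι] (k : ℕ)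
    (F : ι → MvPolynomial (Fin (n + 1)) K) (e : ι → ℕ) (z : Fin (n + 1) → K) : ℝ :=
  (∑ᶠ v : HeightOneSpectrum (𝓞 K), min (k * Real.log (Ideal.absNorm v.asIdeal : ℝ))
    (∑ j, lam v (F j) (e j) z)) / (Module.finrank ℚ K : ℝ)

/-- **The main theorem.** -/
theorem main {n : ℕ} {ι : Type} [Fintype ι] {F : ι → MvPolynomial (Fin (n + 1)) K} {e t : ι → ℕ}
    {V : Fin (n + 1) → K} {j₁ j₂ : ι} (hn : 1 ≤ n) (hV : V ≠ 0) (hF : ∀ j, F j ≠ 0)
    (ht : ∀ j y, (line (F j) y V).natDegree ≤ t j) (hsum : n + ∑ j, t j ≤ ∑ j, e j)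
    (ht₁ : t j₁ = 1) (ht₂ : t j₂ = 1)
    (hgen : ∃ y, (line (F j₁) y V).natDegree = 1 ∧ (line (F j₂) y V).natDegree = 1 ∧
      ∀ s, ¬ ((line (F j₁) y V).eval s = 0 ∧ (line (F j₂) y V).eval s = 0))
    (y : Fin (n + 1) → K) (S : Finset (HeightOneSpectrum (𝓞 K))) {δ : ℝ} (hδ : 0 < δ)
    {G : MvPolynomial (Fin (n + 1)) K} (hG : G ≠ 0) (k : ℕ) {c : ℝ}
    (hc : c < 1 / (2 * (Module.finrank ℚ K : ℝ))) (B : ℝ) :
    ∃ z : Fin (n + 1) → K, (∀ v ∈ S, ∀ i, fv v (z i - y i) < δ) ∧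
      (∀ (w : InfinitePlace K) i, w (z i - y i) < δ) ∧ (∀ j, MvPolynomial.eval z (F j) ≠ 0) ∧
      MvPolynomial.eval z G ≠ 0 ∧ B ≤ height z ∧
      count k F e z + c * Real.log (height z) ≤ (∑ j, (e j : ℝ) - n - 1) * height z := by
  classical
  have hlin : ∀ j, t j = 1 → ∀ y s, (line (F j) y V).eval s = MvPolynomial.eval y (F j) +
      s * (MvPolynomial.eval y (sh V (F j)) - MvPolynomial.eval y (F j)) := fun j hj y s =>
    line_linear ((ht j y).trans hj.le) s
  have hj12 : j₁ ≠ j₂ := by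
    rintro rfl
    obtain ⟨y₀, h1, -, h3⟩ := hgen
    have hA : MvPolynomial.eval y₀ (sh V (F j₁)) - MvPolynomial.eval y₀ (F j₁) ≠ 0 := by
      intro h0
      have h4 : ∀ s, (line (F j₁) y₀ V).eval s = (Polynomial.C (MvPolynomial.eval y₀ (F j₁))).eval s :=
        fun s => by rw [hlin j₁ ht₁, h0, mul_zero, add_zero, Polynomial.eval_C]
      rw [Polynomial.funext h4, Polynomial.natDegree_C] at h1
      exact absurd h1 (by norm_num)
    refine h3 (-(MvPolynomial.eval y₀ (F j₁)) /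
      (MvPolynomial.eval y₀ (sh V (F j₁)) - MvPolynomial.eval y₀ (F j₁))) ?_
    have : (line (F j₁) y₀ V).eval (-(MvPolynomial.eval y₀ (F j₁)) /
      (MvPolynomial.eval y₀ (sh V (F j₁)) - MvPolynomial.eval y₀ (F j₁))) = 0 := by
      rw [hlin j₁ ht₁, div_mul_cancel₀ _ hA, add_neg_cancel]
    exact ⟨this, this⟩
  -- the generic conditions
  obtain ⟨i₀, hi₀⟩ : ∃ i₀, V i₀ ≠ 0 := by
    by_contra hcon
    push Not at hcon
    exact hV (funext hcon)
  obtain ⟨i₁, hi₁⟩ : ∃ i₁ : Fin (n + 1), i₁ ≠ i₀ := by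
    have : 1 < Fintype.card (Fin (n + 1)) := by rw [Fintype.card_fin]; omega
    have : Nontrivial (Fin (n + 1)) := Fintype.one_lt_card_iff_nontrivial.1 this
    exact exists_ne i₀
  set Φ₁ := sh V (F j₁) - F j₁ with hΦ₁
  set Φ₂ := sh V (F j₂) - F j₂ with hΦ₂
  set Φ₃ := sh V (F j₁) * F j₂ - sh V (F j₂) * F j₁ with hΦ₃
  set Ψ : MvPolynomial (Fin (n + 1)) K := MvPolynomial.X i₀ * MvPolynomial.C (V i₁) -
    MvPolynomial.X i₁ * MvPolynomial.C (V i₀) with hΨ
  obtain ⟨y₀, g1, g2, g3⟩ := hgen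
  have hne1 : ∀ j, t j = 1 → (line (F j) y₀ V).natDegree = 1 →
      MvPolynomial.eval y₀ (sh V (F j)) - MvPolynomial.eval y₀ (F j) ≠ 0 := by
    intro j hj hd h0
    have h4 : ∀ s, (line (F j) y₀ V).eval s = (Polynomial.C (MvPolynomial.eval y₀ (F j))).eval s :=
      fun s => by rw [hlin j hj, h0, mul_zero, add_zero, Polynomial.eval_C]
    rw [Polynomial.funext h4, Polynomial.natDegree_C] at hd
    exact absurd hd (by norm_num)
  have hA₁ := hne1 j₁ ht₁ g1
  have hA₂ := hne1 j₂ ht₂ g2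
  have k1 : Φ₁ ≠ 0 := fun h0 => hA₁ (by rw [← map_sub, ← hΦ₁, h0, map_zero])
  have k2 : Φ₂ ≠ 0 := fun h0 => hA₂ (by rw [← map_sub, ← hΦ₂, h0, map_zero])
  have k3 : Φ₃ ≠ 0 := by
    intro h0
    have h1 : MvPolynomial.eval y₀ Φ₃ = 0 := by rw [h0, map_zero]
    rw [hΦ₃, map_sub, map_mul, map_mul] at h1
    refine g3 (-(MvPolynomial.eval y₀ (F j₁)) /
      (MvPolynomial.eval y₀ (sh V (F j₁)) - MvPolynomial.eval y₀ (F j₁))) ⟨?_, ?_⟩
    · rw [hlin j₁ ht₁, div_mul_cancel₀ _ hA₁, add_neg_cancel]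
    · rw [hlin j₂ ht₂]
      field_simp
      linear_combination h1
  have k4 : Ψ ≠ 0 := by
    intro h0
    have h1 : MvPolynomial.eval (fun i => if i = i₁ then (1 : K) else 0) Ψ = 0 := by
      rw [h0, map_zero]
    rw [hΨ] at h1
    simp [hi₁.symm] at h1
    exact hi₀ h1
  have k5 : (∏ j, F j) ≠ 0 := Finset.prod_ne_zero_iff.2 fun j _ => hF j
  have hΦ : Φ₁ * Φ₂ * Φ₃ * Ψ * (∏ j, F j) * G ≠ 0 :=
    mul_ne_zero (mul_ne_zero (mul_ne_zero (mul_ne_zero (mul_ne_zero k1 k2) k3) k4) k5) hG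
  obtain ⟨y', hyS, hyw, hy'⟩ := exists_near hΦ y S (half_pos hδ)
  rw [map_mul, map_mul, map_mul, map_mul, map_mul] at hy'
  have hy1 : MvPolynomial.eval y' Φ₁ ≠ 0 := fun h => hy' (by rw [h]; ring)
  have hy2 : MvPolynomial.eval y' Φ₂ ≠ 0 := fun h => hy' (by rw [h]; ring)
  have hy3 : MvPolynomial.eval y' Φ₃ ≠ 0 := fun h => hy' (by rw [h]; ring)
  have hy4 : MvPolynomial.eval y' Ψ ≠ 0 := fun h => hy' (by rw [h]; ring)
  have hy5 : MvPolynomial.eval y' (∏ j, F j) ≠ 0 := fun h => hy' (by rw [h]; ring)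
  have hy6 : MvPolynomial.eval y' G ≠ 0 := fun h => hy' (by rw [h]; ring)
  have hyF : ∀ j, MvPolynomial.eval y' (F j) ≠ 0 := by
    intro j h
    apply hy5
    rw [map_prod]
    exact Finset.prod_eq_zero (Finset.mem_univ j) h
  rw [hΦ₁, map_sub] at hy1
  rw [hΦ₂, map_sub] at hy2
  rw [hΦ₃, map_sub, map_mul, map_mul] at hy3
  -- the two points on the line
  set B₁ := MvPolynomial.eval y' (F j₁) with hB₁
  set B₂ := MvPolynomial.eval y' (F j₂) with hB₂
  set A₁ := MvPolynomial.eval y' (sh V (F j₁)) - B₁ with hA₁'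
  set A₂ := MvPolynomial.eval y' (sh V (F j₂)) - B₂ with hA₂'
  have hB₁0 : B₁ ≠ 0 := hyF j₁
  have hB₂0 : B₂ ≠ 0 := hyF j₂
  set s₁ : K := -B₁ / A₁ with hs₁
  set s₂ : K := -B₂ / A₂ with hs₂
  have hs₁0 : s₁ ≠ 0 := div_ne_zero (neg_ne_zero.2 hB₁0) hy1
  have hs₂0 : s₂ ≠ 0 := div_ne_zero (neg_ne_zero.2 hB₂0) hy2
  have hs12 : s₂ - s₁ ≠ 0 := by
    intro h
    apply hy3
    have e1 : MvPolynomial.eval y' (sh V (F j₁)) = A₁ + B₁ := by rw [hA₁']; ring
    have e2 : MvPolynomial.eval y' (sh V (F j₂)) = A₂ + B₂ := by rw [hA₂']; ring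
    rw [e1, e2]
    have e3 : B₁ = -(s₁ * A₁) := by rw [hs₁, div_mul_cancel₀ _ hy1, neg_neg]
    have e4 : B₂ = -(s₂ * A₂) := by rw [hs₂, div_mul_cancel₀ _ hy2, neg_neg]
    have e5 : s₂ = s₁ := sub_eq_zero.1 h
    rw [e3, e4, e5]
    ring
  set xy : K := s₁ / (s₁ - s₂) with hxy
  have hs21 : s₁ - s₂ ≠ 0 := by
    intro h; apply hs12; linear_combination -h
  have hxy0 : xy ≠ 0 := div_ne_zero hs₁0 hs21
  have hxy1 : xy ≠ 1 := by
    intro h
    rw [hxy, div_eq_one_iff_eq hs21] at h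
    apply hs₂0
    linear_combination h
  set a : Fin (n + 1) → K := fun i => y' i + s₁ * V i with ha
  set b : Fin (n + 1) → K := fun i => (s₂ - s₁) * V i with hb
  have hpt : ∀ x, pt a b x = fun i => y' i + (s₁ + (s₂ - s₁) * x) * V i := by
    intro x; funext i; unfold pt; rw [ha, hb]; ring
  have hpty : pt a b xy = y' := by
    rw [hpt]; funext i
    have : s₁ + (s₂ - s₁) * xy = 0 := by rw [hxy]; field_simp; ring
    rw [this]; ring
  have hne : a i₀ * b i₁ - a i₁ * b i₀ ≠ 0 := by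
    have e1 : a i₀ * b i₁ - a i₁ * b i₀ = (s₂ - s₁) * (y' i₀ * V i₁ - y' i₁ * V i₀) := by
      rw [ha, hb]; ring
    rw [e1]
    refine mul_ne_zero hs12 ?_
    rw [hΨ, map_sub, map_mul, map_mul, MvPolynomial.eval_X, MvPolynomial.eval_X,
      MvPolynomial.eval_C, MvPolynomial.eval_C] at hy4
    exact hy4
  set lin : Polynomial K := Polynomial.C s₁ + Polynomial.C (s₂ - s₁) * Polynomial.X with hlin'
  have hlindeg : lin.natDegree ≤ 1 := by
    rw [hlin']
    refine (Polynomial.natDegree_add_le _ _).trans (max_le ?_ ?_)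
    · rw [Polynomial.natDegree_C]; exact zero_le_one
    · exact (Polynomial.natDegree_C_mul_le _ _).trans Polynomial.natDegree_X_le
  set g : ι → Polynomial K := fun j => (line (F j) y' V).comp lin with hg
  have hcomp : ∀ (P : MvPolynomial (Fin (n + 1)) K) x,
      ((line P y' V).comp lin).eval x = MvPolynomial.eval (pt a b x) P := by
    intro P x
    rw [Polynomial.eval_comp, line_eval, hpt]
    congr 1
    congr 1
    funext i
    rw [hlin']
    simp
  have hgeval : ∀ j x, MvPolynomial.eval (pt a b x) (F j) = (g j).eval x := fun j x =>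
    (hcomp (F j) x).symm
  have hgdeg : ∀ j, (g j).natDegree ≤ t j := by
    intro j
    refine Polynomial.natDegree_comp_le.trans ?_
    calc (line (F j) y' V).natDegree * lin.natDegree ≤ t j * 1 :=
          Nat.mul_le_mul (ht j y') hlindeg
      _ = t j := mul_one _
  have he1 : ∀ x, (g j₁).eval x = (A₁ * (s₂ - s₁)) * x := by
    intro x
    rw [hg]
    beta_reduce
    rw [Polynomial.eval_comp, hlin j₁ ht₁]
    have e : lin.eval x = s₁ + (s₂ - s₁) * x := by rw [hlin']; simp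
    rw [e, ← hB₁, ← hA₁']
    have e3 : B₁ = -(s₁ * A₁) := by rw [hs₁, div_mul_cancel₀ _ hy1, neg_neg]
    rw [e3]
    ring
  have he2 : ∀ x, (g j₂).eval x = (A₂ * (s₂ - s₁)) * (x - 1) := by
    intro x
    rw [hg]
    beta_reduce
    rw [Polynomial.eval_comp, hlin j₂ ht₂]
    have e : lin.eval x = s₁ + (s₂ - s₁) * x := by rw [hlin']; simp
    rw [e, ← hB₂, ← hA₂']
    have e3 : B₂ = -(s₂ * A₂) := by rw [hs₂, div_mul_cancel₀ _ hy2, neg_neg]
    rw [e3]
    ring
  -- closeness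
  set M : ℝ := 1 + ∑ v ∈ S, bs (fv v) a b + ∑ w : InfinitePlace K, bs w.1 a b with hM
  have hbs0 : ∀ f : AbsoluteValue K ℝ, 0 ≤ bs f a b := fun f =>
    Finset.sum_nonneg fun i _ => add_nonneg (f.nonneg _) (f.nonneg _)
  have n1 : 0 ≤ ∑ v ∈ S, bs (fv v) a b := Finset.sum_nonneg fun v _ => hbs0 _
  have n2 : 0 ≤ ∑ w : InfinitePlace K, bs w.1 a b := Finset.sum_nonneg fun w _ => hbs0 _
  have hM0 : 0 < M := by rw [hM]; linarith
  have hMv : ∀ v ∈ S, ∀ i, fv v (b i) ≤ M := by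
    intro v hv i
    have h1 := Finset.single_le_sum (f := fun v => bs (fv v) a b) (fun v _ => hbs0 _) hv
    have h2 := bs_le (fv v) a b i
    have h3 := (fv v).nonneg (a i)
    rw [hM]; beta_reduce at h1; linarith
  have hMw : ∀ (w : InfinitePlace K) i, w (b i) ≤ M := by
    intro w i
    have h1 := Finset.single_le_sum (f := fun w : InfinitePlace K => bs w.1 a b)
      (fun v _ => hbs0 _) (Finset.mem_univ w)
    have h2 := bs_le w.1 a b i
    have h3 := w.1.nonneg (a i)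
    have h4 : w (b i) = w.1 (b i) := rfl
    rw [hM, h4]; beta_reduce at h1; linarith
  obtain ⟨T₀, v₀, q, C, hv₀, hgood, hC, hcon⟩ :=
    construct hxy0 hxy1 S (div_pos (half_pos hδ) hM0)
  obtain ⟨T, hT₀T, hOk, hu1, hu2, hcf, hint⟩ := exists_T T₀ hne F g
    (mul_ne_zero hy1 hs12) (mul_ne_zero hy2 hs12)
  have hDat : Dat T a b F g t j₁ j₂ (A₁ * (s₂ - s₁)) (A₂ * (s₂ - s₁)) :=
    ⟨hF, hgeval, hgdeg, hj12, he1, he2, hu1, hu2, hcf, hint⟩
  obtain ⟨Ch, hCh0, hCh⟩ := height_comp hOk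
  obtain ⟨Cc, hCc⟩ := count_le hOk hDat e k
  set τ : ℝ := ∑ j ∈ (Finset.univ.erase j₁).erase j₂, (t j : ℝ) with hτ
  have hτ0 : 0 ≤ τ := Finset.sum_nonneg fun j _ => Nat.cast_nonneg _
  set E : ℝ := ∑ j, (e j : ℝ) - n - 1 with hE
  have hEτ : τ + 1 ≤ E := by
    have h1 : (n : ℝ) + ∑ j, (t j : ℝ) ≤ ∑ j, (e j : ℝ) := by exact_mod_cast hsum
    have h2 : ∑ j, (t j : ℝ) = 1 + (1 + τ) := by
      rw [← Finset.add_sum_erase _ _ (Finset.mem_univ j₁),
        ← Finset.add_sum_erase (Finset.univ.erase j₁) _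
          (Finset.mem_erase.2 ⟨hj12.symm, Finset.mem_univ j₂⟩), ht₁, ht₂]
      push_cast
      rfl
    rw [hE]; linarith
  -- bad parameters
  set pG : Polynomial K := (line G y' V).comp lin with hpG
  have hpG0 : pG ≠ 0 := by
    intro h0
    have := hcomp G xy
    rw [← hpG, h0, Polynomial.eval_zero, hpty] at this
    exact hy6 this.symm
  have hg0 : ∀ j, g j ≠ 0 := by
    intro j h0
    have := hgeval j xy
    rw [h0, Polynomial.eval_zero, hpty] at this
    exact hyF j this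
  set R : Finset K := pG.roots.toFinset ∪ Finset.univ.biUnion (fun j => (g j).roots.toFinset)
    with hR
  have hRle : ∀ r ∈ R, dh r ≤ ∑ r ∈ R, |dh r| := fun r hr =>
    (le_abs_self _).trans (Finset.single_le_sum (f := fun r => |dh r|)
      (fun _ _ => abs_nonneg _) hr)
  -- the degree
  set d : ℝ := (Module.finrank ℚ K : ℝ) with hd
  have hd1 : 1 ≤ d := by
    have : 1 ≤ Module.finrank ℚ K := Module.finrank_pos
    rw [hd]; exact_mod_cast this
  have hd0 : 0 < d := by linarith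
  set c' : ℝ := max c 0 with hc'
  have hc'0 : 0 ≤ c' := le_max_right _ _
  have hc'1 : c' < 1 / (2 * d) := max_lt hc (by positivity)
  have hlq : 0 < Real.log q := Real.log_pos (by exact_mod_cast hgood.prime.one_lt)
  have hgap : 0 < 1 - 2 * c' * d := by
    rw [lt_div_iff₀ (by positivity)] at hc'1
    linarith
  set E₀ : ℝ := (k : ℝ) * Real.log q + k * ∑ v ∈ T₀, Real.log (Nv v) with hE₀
  set C₂ : ℝ := Cc + E₀ + (τ + 1) * Ch with hC₂
  -- `m` is large
  have l1 : ∀ᶠ m : ℕ in Filter.atTop, d * max B 1 + Ch + E₀ ≤ (m : ℝ) * Real.log q :=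
    (tendsto_natCast_atTop_atTop.atTop_mul_const hlq).eventually_ge_atTop _
  have l2 : ∀ᶠ m : ℕ in Filter.atTop, c' * d * Real.log (C + Ch) + C₂ ≤
      (m : ℝ) * ((1 - 2 * c' * d) * Real.log q) :=
    (tendsto_natCast_atTop_atTop.atTop_mul_const (mul_pos hgap hlq)).eventually_ge_atTop _
  have l3 : ∀ᶠ m : ℕ in Filter.atTop, ∑ r ∈ R, |dh r| + E₀ < (m : ℝ) * Real.log q :=
    (tendsto_natCast_atTop_atTop.atTop_mul_const hlq).eventually_gt_atTop _
  obtain ⟨m₀, hm₀⟩ := Filter.eventually_atTop.1 ((l1.and l2).and l3)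
  obtain ⟨m, ρ, hm, hρ0, hx0, hx1, hTx, hSx, hwx, hcong, hht⟩ := hcon m₀
  obtain ⟨⟨e1, e2⟩, e3⟩ := hm₀ m hm
  set x : K := (ρ : K) * xy with hx
  have hTx' : ∀ v, v ∉ T → fv v x = 1 := fun v hv => hTx v fun h => hv (hT₀T h)
  have hNv : Nv v₀ = q := by unfold Nv; rw [hgood.norm]
  have hge := height_ge hx0 hx1 k T₀ hTx v₀ hv₀ (m + 1) hcong
  rw [hNv] at hge
  push_cast at hge
  have hge' : ∑ᶠ v : HeightOneSpectrum (𝓞 K), cn k v x + m * Real.log q - E₀ ≤ dh x := by
    unfold dh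
    refine le_trans ?_ hge
    rw [hE₀]
    nlinarith
  have hcn : 0 ≤ ∑ᶠ v : HeightOneSpectrum (𝓞 K), cn k v x :=
    finsum_nonneg fun v => cn_nonneg k v hx0 hx1
  have hxR : x ∉ R := fun hmem => by
    have := hRle x hmem
    linarith
  have hzF : ∀ j, MvPolynomial.eval (pt a b x) (F j) ≠ 0 := by
    intro j h0
    apply hxR
    rw [hR, Finset.mem_union, Finset.mem_biUnion]
    refine Or.inr ⟨j, Finset.mem_univ j, ?_⟩
    rw [Multiset.mem_toFinset, Polynomial.mem_roots (hg0 j)]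
    rw [hgeval] at h0
    exact h0
  have hzG : MvPolynomial.eval (pt a b x) G ≠ 0 := by
    intro h0
    apply hxR
    rw [hR, Finset.mem_union]
    refine Or.inl ?_
    rw [Multiset.mem_toFinset, Polynomial.mem_roots hpG0]
    rw [← hcomp G x, ← hpG] at h0
    exact h0
  obtain ⟨hh1, hh2⟩ := hCh x hTx'
  have hcount := hCc x hx0 hx1 hTx' hzF
  have hbig : d * max B 1 ≤ dhz (pt a b x) := by linarith
  have hdz1 : 1 ≤ dhz (pt a b x) / d := by
    rw [le_div_iff₀ hd0, one_mul]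
    have : d * 1 ≤ d * max B 1 := mul_le_mul_of_nonneg_left (le_max_right _ _) hd0.le
    linarith
  have hdz0 : 0 ≤ dhz (pt a b x) := by
    rw [le_div_iff₀ hd0] at hdz1
    linarith
  have hzi : ∀ i, pt a b x i - y' i = (x - xy) * b i := by
    intro i
    have h1 : y' i = pt a b xy i := by rw [hpty]
    rw [h1]
    unfold pt
    ring
  refine ⟨pt a b x, fun v hv i => ?_, fun w i => ?_, hzF, hzG, ?_, ?_⟩
  · have e : pt a b x i - y i = (x - xy) * b i + (y' i - y i) := by rw [← hzi]; ring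
    rw [e]
    refine (fv_na v _ _).trans_lt (max_lt ?_ ((hyS v hv i).trans (half_lt_self hδ)))
    rw [map_mul]
    have h1 := hSx v hv
    rw [lt_div_iff₀ hM0] at h1
    calc fv v (x - xy) * fv v (b i) ≤ fv v (x - xy) * M :=
          mul_le_mul_of_nonneg_left (hMv v hv i) ((fv v).nonneg _)
      _ < δ / 2 := h1
      _ < δ := half_lt_self hδ
  · have e : pt a b x i - y i = (x - xy) * b i + (y' i - y i) := by rw [← hzi]; ring
    have h0 : w ((x - xy) * b i + (y' i - y i)) ≤ w ((x - xy) * b i) + w (y' i - y i) :=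
      w.1.add_le _ _
    rw [e]
    refine h0.trans_lt ?_
    rw [map_mul]
    have h1 := hwx w
    rw [lt_div_iff₀ hM0] at h1
    have h2 : w (x - xy) * w (b i) ≤ w (x - xy) * M :=
      mul_le_mul_of_nonneg_left (hMw w i) (w.1.nonneg _)
    linarith [hyw w i]
  · rw [height_eq, le_div_iff₀ hd0]
    have : d * B ≤ d * max B 1 := mul_le_mul_of_nonneg_left (le_max_left _ _) hd0.le
    linarith
  · have hcnt : count k F e (pt a b x) = (∑ᶠ v : HeightOneSpectrum (𝓞 K),
        min (k * Real.log (Nv v)) (∑ j, lam v (F j) (e j) (pt a b x))) / d := rfl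
    rw [hcnt, height_eq]
    have hlog : Real.log (dhz (pt a b x) / d) ≤ Real.log (C + Ch) + 2 * m * Real.log q := by
      have hq0 : (0 : ℝ) < q := by exact_mod_cast hgood.prime.pos
      have hq1 : (1 : ℝ) ≤ (q : ℝ) ^ (2 * m) :=
        one_le_pow₀ (by exact_mod_cast hgood.prime.one_lt.le)
      have hle : dhz (pt a b x) / d ≤ (C + Ch) * (q : ℝ) ^ (2 * m) := by
        rw [div_le_iff₀ hd0]
        have h3 : 0 ≤ (C + Ch) * (q : ℝ) ^ (2 * m) := by positivity
        have h4 : dhz (pt a b x) ≤ (C + Ch) * (q : ℝ) ^ (2 * m) := by nlinarith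
        nlinarith
      have h4 := Real.log_le_log (by linarith) hle
      rw [Real.log_mul (by positivity) (by positivity), Real.log_pow] at h4
      push_cast at h4
      exact h4
    have hlog0 : 0 ≤ Real.log (dhz (pt a b x) / d) := Real.log_nonneg hdz1
    have h5 : c * Real.log (dhz (pt a b x) / d) ≤ c' * (Real.log (C + Ch) + 2 * m * Real.log q) :=
      (mul_le_mul_of_nonneg_right (le_max_left c 0) hlog0).trans
        (mul_le_mul_of_nonneg_left hlog hc'0)
    have h6 : d * (c' * (Real.log (C + Ch) + 2 * m * Real.log q)) ≤ m * Real.log q - C₂ := by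
      nlinarith
    have h7 : d * (c * Real.log (dhz (pt a b x) / d)) ≤ m * Real.log q - C₂ :=
      (mul_le_mul_of_nonneg_left h5 hd0.le).trans h6
    have h8 : (τ + 1) * dh x ≤ (τ + 1) * (dhz (pt a b x) + Ch) :=
      mul_le_mul_of_nonneg_left hh1 (by linarith)
    have h9 : (τ + 1) * dhz (pt a b x) ≤ E * dhz (pt a b x) :=
      mul_le_mul_of_nonneg_right hEτ hdz0
    have h10 : ∑ᶠ v : HeightOneSpectrum (𝓞 K),
        min (k * Real.log (Nv v)) (∑ j, lam v (F j) (e j) (pt a b x)) + (m * Real.log q - C₂) ≤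
        E * dhz (pt a b x) := by
      rw [hC₂]
      have : (τ + 1) * dh x = τ * dh x + dh x := by ring
      have : (τ + 1) * (dhz (pt a b x) + Ch) = (τ + 1) * dhz (pt a b x) + (τ + 1) * Ch := by ring
      linarith
    rw [div_add' _ _ _ hd0.ne', ← mul_div_assoc, div_le_div_iff_of_pos_right hd0]
    linarith

end Pool.Agent.U64.AN
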